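import Pool.Agent.Lib.MP_340815_al.H86.Main
import Pool.Agent.Lib.MP_340815_al.H45.Assembly

/-!
# MP_340815_al : module M2 in the form required by the assembly
-/

set_option autoImplicit false

namespace Pool.Agent.Lib.MP_340815_al.H86

open Pool.Agent.MP_340815_al

/-- The interface of module M2 holds. -/
theorem m2Statement : M2Statement :=
  ⟨strat, fun p => isOpen_strat p, fun p => isSimplyConnected_strat
    (fun a b d h1 h2 => Gam_no_triangle a b d h1 h2) p, strat_surjective⟩

end Pool.Agent.Lib.MP_340815_al.H86
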