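import Pool.Agent.Lib.MP_340815_al.H86.Perm
import Pool.Agent.Lib.MP_340815_al.H64.Defs

/-!
# MP_340815_al : the stratification of the unordered configuration space (module M2)

`strat : X G → UType G 3` maps an unordered configuration of three points to its type. If `G` has
no triangles then it is surjective and all its up-sets are open and simply connected.
-/

set_option autoImplicit false
set_option linter.unusedSectionVars false

namespace Pool.Agent.Lib.MP_340815_al.H86

open Finset Pool.Agent.MP_340815_al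

variable {V : Type} [DecidableEq V] [Fintype V] {G : SimpleGraph V}

/-- The unordered configuration space of three points, exactly as in the frozen statement. -/
abbrev X (G : SimpleGraph V) : Type :=
  Quot (fun (f g : {f : Fin 3 → {p : V → ℝ // ∃ u v : V, (u = v ∨ G.Adj u v) ∧
            ∃ t : ℝ, 0 ≤ t ∧ t ≤ 1 ∧ p = t • Pi.single u (1 : ℝ) + (1 - t) • Pi.single v (1 : ℝ)} //
              Function.Injective f}) => ∃ σ : Equiv.Perm (Fin 3), g.1 = f.1 ∘ σ)

/-- The unordered configuration of an ordered one. -/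
abbrev mkX (f : Ord G) : X G := Quot.mk _ f

lemma act_one (f : Ord G) : act 1 f = f := rfl

lemma act_act (σ τ : Equiv.Perm (Fin 3)) (f : Ord G) : act τ (act σ f) = act (σ * τ) f := rfl

lemma mkX_eq_iff (f g : Ord G) : mkX f = mkX g ↔ ∃ σ, g = act σ f := by
  constructor
  · intro h
    have h' := Quot.eqvGen_exact h
    clear h
    induction h' with
    | rel _ _ h =>
      obtain ⟨σ, h⟩ := h
      exact ⟨σ, Subtype.ext h⟩
    | refl x => exact ⟨1, rfl⟩
    | symm x y _ ih =>
      obtain ⟨σ, h⟩ := ih
      refine ⟨σ⁻¹, ?_⟩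
      rw [h, act_act, mul_inv_cancel, act_one]
    | trans x y z _ _ ih1 ih2 =>
      obtain ⟨σ, h1⟩ := ih1
      obtain ⟨τ, h2⟩ := ih2
      exact ⟨σ * τ, by rw [h2, h1, act_act]⟩
  · rintro ⟨σ, rfl⟩
    exact Quot.sound ⟨σ, rfl⟩

/-- The type of an ordered configuration. -/
noncomputable def otype (f : Ord G) : OType G 3 where
  pos := fun i => supp (f.1 i).1
  isPos := fun i => by
    rcases (f.1 i).supp_cases with ⟨v, h⟩ | ⟨u, v, h, h'⟩
    · exact ⟨v, v, Or.inl rfl, by rw [h]; simp⟩
    · exact ⟨u, v, Or.inr h, h'⟩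
  inj := fun i j v hi hj => by
    apply f.2
    apply Pt.ext_of_one (u := v)
    · intro w hw
      apply (f.1 i).eq_zero_of_notMem
      rw [hi]
      simpa using hw
    · intro w hw
      apply (f.1 j).eq_zero_of_notMem
      rw [hj]
      simpa using hw

lemma otype_pos (f : Ord G) (i : Fin 3) : (otype f).pos i = supp (f.1 i).1 := rfl

/-- The type of an unordered configuration. -/
noncomputable def strat : X G → UType G 3 :=
  Quot.lift (fun f : Ord G => UType.mk (otype f)) (by
    rintro f g ⟨σ, h⟩
    refine (UType.mk_eq_iff _ _).2 ⟨σ, ?_⟩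
    funext i
    change supp (g.1 i).1 = supp (f.1 (σ i)).1
    rw [h]
    rfl)

lemma strat_mk (f : Ord G) : strat (mkX f) = UType.mk (otype f) := rfl

/-- The up-set of a type is the union of the permuted stars. -/
lemma le_strat_iff (c f : Ord G) :
    UType.mk (otype c) ≤ strat (mkX f) ↔ ∃ σ, act σ f ∈ St c := by
  rw [strat_mk, UType.mk_le_iff]
  constructor
  · rintro ⟨q, hq, hsub⟩
    obtain ⟨σ, hσ⟩ := (UType.mk_eq_iff _ _).1 hq
    have hs : Sub (co c.1) (co (act σ⁻¹ f).1) := by
      intro i v hv
      have h1 : v ∈ (otype c).pos i := mem_supp.2 hv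
      have h2 := hsub i h1
      have h3 : q.pos i = (otype f).pos (σ⁻¹ i) := by
        rw [hσ]
        simp
      rw [h3] at h2
      exact mem_supp.1 h2
    obtain ⟨τ, hτ⟩ := exists_perm_mem_St hs
    exact ⟨σ⁻¹ * τ, by rw [← act_act]; exact hτ⟩
  · rintro ⟨σ, hs, -⟩
    refine ⟨otype (act σ f), ?_, ?_⟩
    · refine ((UType.mk_eq_iff _ _).2 ⟨σ, rfl⟩).symm
    · intro i v hv
      exact mem_supp.2 (hs i v (mem_supp.1 hv))

/-- Every ordered type is the type of a configuration. -/
lemma exists_center (p : OType G 3) : ∃ c : Ord G, otype c = p := by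
  classical
  choose u v huv hpos using p.isPos
  let a : Fin 3 → ℝ := fun i => ((i : ℕ) + 1) / 8
  have ha0 : ∀ i, 0 < a i := fun i => by simp only [a]; positivity
  have ha1 : ∀ i, a i < 1 := fun i => by
    simp only [a]
    have : (i : ℕ) < 3 := i.2
    have : ((i : ℕ) : ℝ) < 3 := by exact_mod_cast this
    linarith
  let c : Fin 3 → Pt G := fun i =>
    ⟨a i • Pi.single (u i) (1 : ℝ) + (1 - a i) • Pi.single (v i) (1 : ℝ), u i, v i, huv i, a i,
      (ha0 i).le, (ha1 i).le, rfl⟩
  have hval : ∀ i w, (c i).1 w = (if w = u i then a i else 0) + (if w = v i then 1 - a i else 0) := by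
    intro i w
    simp only [c, Pi.add_apply, Pi.smul_apply, Pi.single_apply, smul_eq_mul, mul_ite, mul_one,
      mul_zero]
  have hsupp : ∀ i, supp (c i).1 = p.pos i := by
    intro i
    rw [hpos i]
    ext w
    rw [mem_supp, hval]
    have h0 := ha0 i
    have h1 := ha1 i
    simp only [Finset.mem_insert, Finset.mem_singleton]
    by_cases hu : w = u i
    · by_cases hv : w = v i
      · rw [if_pos hu, if_pos hv]
        exact ⟨fun _ => Or.inl hu, fun _ => by linarith⟩
      · rw [if_pos hu, if_neg hv]
        exact ⟨fun _ => Or.inl hu, fun _ => by linarith⟩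
    · by_cases hv : w = v i
      · rw [if_neg hu, if_pos hv]
        exact ⟨fun _ => Or.inr hv, fun _ => by linarith⟩
      · rw [if_neg hu, if_neg hv]
        constructor
        · intro h
          linarith
        · rintro (h | h)
          · exact absurd h hu
          · exact absurd h hv
  have hinj : Function.Injective c := by
    intro i j hij
    have hpij : p.pos i = p.pos j := by rw [← hsupp i, ← hsupp j, hij]
    by_cases hu : u i = v i
    · have h1 : p.pos i = {u i} := by rw [hpos i, ← hu]; simp
      exact p.inj i j (u i) h1 (hpij ▸ h1)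
    · have h2 := hval i (u i)
      rw [if_pos rfl, if_neg hu, add_zero] at h2
      have h3 := hval j (u i)
      rw [← hij] at h3
      have hmem : u i ∈ p.pos j := by rw [← hpij, hpos i]; simp
      have hne : u j ≠ v j := by
        intro he
        have h4 : p.pos j = {u j} := by rw [hpos j, ← he]; simp
        have h5 : p.pos i = {u j} := hpij.trans h4
        rw [hpos i] at h5
        have h6 : u i = u j := by
          have : u i ∈ ({u j} : Finset V) := by rw [← h5]; simp
          simpa using this
        have h7 : v i = u j := by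
          have : v i ∈ ({u j} : Finset V) := by rw [← h5]; simp
          simpa using this
        exact hu (h6.trans h7.symm)
      rw [hpos j] at hmem
      simp only [Finset.mem_insert, Finset.mem_singleton] at hmem
      rcases hmem with hm | hm
      · rw [if_pos hm, if_neg (by rw [hm]; exact hne), add_zero] at h3
        have h4 : a i = a j := h2.symm.trans h3
        simp only [a] at h4
        apply Fin.ext
        have : ((i : ℕ) : ℝ) = ((j : ℕ) : ℝ) := by linarith
        exact_mod_cast this
      · rw [if_neg (by rw [hm]; exact Ne.symm hne), if_pos hm, zero_add] at h3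
        have h4 : a i = 1 - a j := h2.symm.trans h3
        simp only [a] at h4
        exfalso
        have hi : ((i : ℕ) : ℝ) ≤ 2 := by exact_mod_cast Nat.le_of_lt_succ i.2
        have hj : ((j : ℕ) : ℝ) ≤ 2 := by exact_mod_cast Nat.le_of_lt_succ j.2
        linarith
  refine ⟨⟨c, hinj⟩, ?_⟩
  apply OType.ext'
  funext i
  exact hsupp i

lemma exists_center' (p : UType G 3) : ∃ c : Ord G, UType.mk (otype c) = p := by
  obtain ⟨p', rfl⟩ := p.exists_rep
  obtain ⟨c, rfl⟩ := exists_center p'
  exact ⟨c, rfl⟩

theorem strat_surjective : Function.Surjective (strat : X G → UType G 3) := by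
  intro p
  obtain ⟨c, rfl⟩ := exists_center' p
  exact ⟨mkX c, rfl⟩

lemma isOpenMap_mkX : IsOpenMap (mkX : Ord G → X G) := by
  intro U hU
  rw [isOpen_coinduced]
  have : mkX ⁻¹' (mkX '' U) = ⋃ σ : Equiv.Perm (Fin 3), act σ ⁻¹' U := by
    ext f
    simp only [Set.mem_preimage, Set.mem_image, Set.mem_iUnion]
    constructor
    · rintro ⟨g, hg, hgf⟩
      obtain ⟨σ, rfl⟩ := (mkX_eq_iff f g).1 hgf.symm
      exact ⟨σ, hg⟩
    · rintro ⟨σ, hσ⟩
      exact ⟨act σ f, hσ, ((mkX_eq_iff f _).2 ⟨σ, rfl⟩).symm⟩
  change IsOpen (mkX ⁻¹' (mkX '' U))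
  rw [this]
  exact isOpen_iUnion fun σ => hU.preimage (continuous_act σ)

theorem isOpen_strat (p : UType G 3) : IsOpen {x : X G | p ≤ strat x} := by
  obtain ⟨c, rfl⟩ := exists_center' p
  have : {x : X G | UType.mk (otype c) ≤ strat x} = mkX '' (St c) := by
    ext x
    obtain ⟨f, rfl⟩ := Quot.exists_rep x
    change UType.mk (otype c) ≤ strat (mkX f) ↔ _
    rw [le_strat_iff]
    constructor
    · rintro ⟨σ, hσ⟩
      exact ⟨act σ f, hσ, ((mkX_eq_iff f _).2 ⟨σ, rfl⟩).symm⟩
    · rintro ⟨g, hg, hgf⟩
      obtain ⟨σ, rfl⟩ := (mkX_eq_iff f g).1 hgf.symm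
      exact ⟨σ, hg⟩
  rw [this]
  exact isOpenMap_mkX _ (isOpen_St c)

theorem isSimplyConnected_strat (hG : ∀ a b d, G.Adj a b → G.Adj b d → ¬ G.Adj d a)
    (p : UType G 3) : IsSimplyConnected {x : X G | p ≤ strat x} := by
  obtain ⟨c, rfl⟩ := exists_center' p
  let e : St c → {x : X G | UType.mk (otype c) ≤ strat x} :=
    fun f => ⟨mkX f.1, (le_strat_iff c f.1).2 ⟨1, f.2⟩⟩
  have he1 : Continuous e :=
    (continuous_quot_mk.comp continuous_subtype_val).subtype_mk _
  have he2 : IsOpenMap e := by
    have h1 : IsOpenMap (fun f : St c => mkX f.1) :=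
      isOpenMap_mkX.comp (isOpen_St c).isOpenMap_subtype_val
    exact h1.subtype_mk _
  have he3 : Function.Bijective e := by
    constructor
    · intro f g hfg
      have h1 : mkX f.1 = mkX g.1 := congrArg Subtype.val hfg
      obtain ⟨σ, hσ⟩ := (mkX_eq_iff _ _).1 h1
      have h2 : act σ f.1 ∈ St c := hσ ▸ g.2
      have h3 := perm_eq_one hG f.2 h2
      subst h3
      exact Subtype.ext hσ.symm
    · rintro ⟨x, hx⟩
      obtain ⟨f, rfl⟩ := Quot.exists_rep x
      obtain ⟨σ, hσ⟩ := (le_strat_iff c f).1 hx
      refine ⟨⟨act σ f, hσ⟩, Subtype.ext ?_⟩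
      exact ((mkX_eq_iff f _).2 ⟨σ, rfl⟩).symm
  have e' : St c ≃ₜ {x : X G | UType.mk (otype c) ≤ strat x} :=
    (Equiv.ofBijective e he3).toHomeomorphOfContinuousOpen he1 he2
  have : ContractibleSpace {x : X G | UType.mk (otype c) ≤ strat x} :=
    e'.symm.contractibleSpace
  change SimplyConnectedSpace {x : X G | UType.mk (otype c) ≤ strat x}
  infer_instance

end Pool.Agent.Lib.MP_340815_al.H86
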