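import Pool.Agent.Lib.MP_340815_al.H86.Star

/-!
# MP_340815_al : stars and permutations of the three particles
-/

set_option autoImplicit false
set_option linter.unusedSectionVars false

namespace Pool.Agent.Lib.MP_340815_al.H86

open Finset

variable {V : Type} [DecidableEq V] [Fintype V] {G : SimpleGraph V}

/-- The action of a permutation on ordered configurations. -/
def act (σ : Equiv.Perm (Fin 3)) (f : Ord G) : Ord G := ⟨f.1 ∘ σ, f.2.comp σ.injective⟩

lemma act_apply (σ : Equiv.Perm (Fin 3)) (f : Ord G) (i : Fin 3) : (act σ f).1 i = f.1 (σ i) := rfl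

lemma continuous_act (σ : Equiv.Perm (Fin 3)) : Continuous (act σ : Ord G → Ord G) := by
  apply Continuous.subtype_mk
  exact continuous_pi fun i => (continuous_apply (σ i)).comp continuous_subtype_val

/-- Two different points in a closed edge: their supports cover the edge. -/
lemma pos_or_pos {p q : Pt G} {u v : V} (huv : u ≠ v) (hpq : p ≠ q)
    (hp : ∀ w, w ≠ u → w ≠ v → p.1 w = 0) (hq : ∀ w, w ≠ u → w ≠ v → q.1 w = 0) :
    0 < p.1 u ∨ 0 < q.1 u := by
  by_contra h
  push Not at h
  have h1 : p.1 u = 0 := le_antisymm h.1 (p.nonneg u)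
  have h2 : q.1 u = 0 := le_antisymm h.2 (q.nonneg u)
  exact hpq (Pt.ext_of_two huv hp hq (h1.trans h2.symm))

lemma perm_three (σ : Equiv.Perm (Fin 3)) (h : σ ≠ 1) :
    (∃ i, σ i ≠ i ∧ σ (σ i) = i) ∨
      (σ (σ (σ 0)) = 0 ∧ 0 ≠ σ 0 ∧ σ 0 ≠ σ (σ 0) ∧ σ (σ 0) ≠ 0) := by
  revert σ
  decide

/-- The two centres `c i`, `c j` lie in the closed cell of the point `p` which therefore is in an
open edge. -/
lemma edge_of_two {c : Fin 3 → Pt G} (hc : Function.Injective c) {i j : Fin 3} (hij : i ≠ j)
    {p : Pt G} (hi : ∀ v, 0 < (c i).1 v → 0 < p.1 v) (hj : ∀ v, 0 < (c j).1 v → 0 < p.1 v) :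
    ∃ u v, u ≠ v ∧ G.Adj u v ∧ (∀ w, w ≠ u → w ≠ v → p.1 w = 0) ∧ 0 < p.1 u ∧ 0 < p.1 v ∧
      (∀ w, w ≠ u → w ≠ v → (c i).1 w = 0) ∧ (∀ w, w ≠ u → w ≠ v → (c j).1 w = 0) := by
  have key : ∀ (q : Pt G), (∀ v, 0 < q.1 v → 0 < p.1 v) → ∀ w, p.1 w = 0 → q.1 w = 0 := by
    intro q hq w hw
    by_contra hcq
    have := hq w (lt_of_le_of_ne (q.nonneg w) (Ne.symm hcq))
    rw [hw] at this
    exact lt_irrefl _ this
  obtain ⟨u, v, huv, h0, -, -, -⟩ := p.exists_cell
  have hi0 : ∀ w, w ≠ u → w ≠ v → (c i).1 w = 0 := fun w h1 h2 => key _ hi w (h0 w h1 h2)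
  have hj0 : ∀ w, w ≠ u → w ≠ v → (c j).1 w = 0 := fun w h1 h2 => key _ hj w (h0 w h1 h2)
  have hcij : c i ≠ c j := fun h => hij (hc h)
  by_cases h : u = v
  · subst h
    exact absurd (Pt.ext_of_one (fun w hw => hi0 w hw hw) (fun w hw => hj0 w hw hw)) hcij
  · have hadj : G.Adj u v := huv.resolve_left h
    refine ⟨u, v, h, hadj, h0, ?_, ?_, hi0, hj0⟩
    · rcases pos_or_pos h hcij hi0 hj0 with h1 | h1
      · exact hi u h1
      · exact hj u h1
    · rcases pos_or_pos (Ne.symm h) hcij (fun w h1 h2 => hi0 w h2 h1)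
        (fun w h1 h2 => hj0 w h2 h1) with h1 | h1
      · exact hi v h1
      · exact hj v h1

/-- Different permutations of a star are disjoint. -/
lemma perm_eq_one (hG : ∀ a b d, G.Adj a b → G.Adj b d → ¬ G.Adj d a) {c f : Ord G}
    {σ : Equiv.Perm (Fin 3)} (h1 : f ∈ St c) (h2 : act σ f ∈ St c) : σ = 1 := by
  by_contra hσ
  obtain ⟨hs, hp⟩ := h1
  obtain ⟨hs', hp'⟩ := h2
  have hc := c.2
  rcases perm_three σ hσ with ⟨i, hi, hii⟩ | ⟨hcyc, h01, h12, h20⟩
  · -- a transposition
    obtain ⟨u, v, huv, -, hf0, -, -, hci, hcj⟩ := edge_of_two (p := f.1 (σ i)) hc hi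
      (fun v hv => hs (σ i) v hv) (fun v hv => hs' i v hv)
    have hcne : c.1 (σ i) ≠ c.1 i := fun h => hi (hc h)
    -- the other point
    have hfi : ∀ w, w ≠ u → w ≠ v → (f.1 i).1 w = 0 := by
      have a1 : 0 < (f.1 i).1 u := by
        rcases pos_or_pos huv hcne hci hcj with h | h
        · have := hs' (σ i) u h
          change 0 < (f.1 (σ (σ i))).1 u at this
          rwa [hii] at this
        · exact hs i u h
      have a2 : 0 < (f.1 i).1 v := by
        rcases pos_or_pos (Ne.symm huv) hcne (fun w h1 h2 => hci w h2 h1)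
          (fun w h1 h2 => hcj w h2 h1) with h | h
        · have := hs' (σ i) v h
          change 0 < (f.1 (σ (σ i))).1 v at this
          rwa [hii] at this
        · exact hs i v h
      intro w hw1 hw2
      exact (f.1 i).eq_zero_of_two a1 a2 huv hw1 hw2
    have e1 := (f.1 (σ i)).add_eq_one huv hf0
    have e2 := (f.1 i).add_eq_one huv hfi
    have hne2 : (c.1 i).1 v ≠ (c.1 (σ i)).1 v := by
      intro he
      exact hcne (Pt.ext_of_two (Ne.symm huv) (fun w h1 h2 => hci w h2 h1)
        (fun w h1 h2 => hcj w h2 h1) he.symm)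
    rcases lt_or_gt_of_ne hne2 with hlt | hlt
    · have b1 := hp i (σ i) u v huv hcj hci hlt
      have b2 := hp' i (σ i) u v huv hcj hci hlt
      change (f.1 i).1 v + (f.1 (σ i)).1 u < 1 at b1
      change (f.1 (σ i)).1 v + (f.1 (σ (σ i))).1 u < 1 at b2
      rw [hii] at b2
      linarith
    · have b1 := hp (σ i) i u v huv hci hcj hlt
      have b2 := hp' (σ i) i u v huv hci hcj hlt
      change (f.1 (σ i)).1 v + (f.1 i).1 u < 1 at b1
      change (f.1 (σ (σ i))).1 v + (f.1 (σ i)).1 u < 1 at b2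
      rw [hii] at b2
      linarith
  · -- a three-cycle
    set i : Fin 3 := 0 with hidef
    set j : Fin 3 := σ i with hjdef
    set k : Fin 3 := σ j with hkdef
    have hki : σ k = i := hcyc
    -- membership facts
    have fj_i : ∀ v, 0 < (c.1 i).1 v → 0 < (f.1 j).1 v := fun v hv => hs' i v hv
    have fk_j : ∀ v, 0 < (c.1 j).1 v → 0 < (f.1 k).1 v := fun v hv => hs' j v hv
    have fi_k : ∀ v, 0 < (c.1 k).1 v → 0 < (f.1 i).1 v := by
      intro v hv
      have := hs' k v hv
      change 0 < (f.1 (σ k)).1 v at this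
      rwa [hki] at this
    obtain ⟨a, b, hab, hadj, hfj0, hfja, hfjb, hcj0, hci0⟩ := edge_of_two (p := f.1 j) hc
      (Ne.symm h01) (fun v hv => hs j v hv) fj_i
    obtain ⟨a', b', hab', hadj', hfk0, hfka, hfkb, hck0', hcj0'⟩ := edge_of_two (p := f.1 k) hc
      (Ne.symm h12) (fun v hv => hs k v hv) fk_j
    obtain ⟨a'', b'', hab'', hadj'', hfi0, hfia, hfib, hci0'', hck0''⟩ :=
      edge_of_two (p := f.1 i) hc (Ne.symm h20) (fun v hv => hs i v hv) fi_k
    -- if all points lie on one edge
    have common : ∀ u v, u ≠ v → (∀ m, ∀ w, w ≠ u → w ≠ v → (f.1 m).1 w = 0) → False := by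
      intro u v huv hall
      have hcall : ∀ m, ∀ w, w ≠ u → w ≠ v → (c.1 m).1 w = 0 :=
        fun m w h1 h2 => hs.eq_zero (hall m w h1 h2)
      have e : ∀ m, (f.1 m).1 u + (f.1 m).1 v = 1 := fun m => (f.1 m).add_eq_one huv (hall m)
      have r1 : ∀ m n, (c.1 m).1 v < (c.1 n).1 v → (f.1 m).1 v < (f.1 n).1 v := by
        intro m n hlt
        have := hp m n u v huv (hcall m) (hcall n) hlt
        change (f.1 m).1 v + (f.1 n).1 u < 1 at this
        have := e n
        linarith
      have r2 : ∀ m n, (c.1 m).1 v < (c.1 n).1 v → (f.1 (σ m)).1 v < (f.1 (σ n)).1 v := by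
        intro m n hlt
        have := hp' m n u v huv (hcall m) (hcall n) hlt
        change (f.1 (σ m)).1 v + (f.1 (σ n)).1 u < 1 at this
        have := e (σ n)
        linarith
      have hne2 : ∀ m n, m ≠ n → (c.1 m).1 v ≠ (c.1 n).1 v := by
        intro m n hmn he
        exact hmn (hc (Pt.ext_of_two (Ne.symm huv) (fun w h1 h2 => hcall m w h2 h1)
          (fun w h1 h2 => hcall n w h2 h1) he))
      rcases lt_or_gt_of_ne (hne2 i j h01) with hij | hij
      · have s1 := r1 i j hij
        have s2 := r2 i j hij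
        change (f.1 j).1 v < (f.1 k).1 v at s2
        rcases lt_or_gt_of_ne (hne2 j k h12) with hjk | hjk
        · have s3 := r2 j k hjk
          rw [hki] at s3
          change (f.1 k).1 v < (f.1 i).1 v at s3
          linarith
        · have s3 := r1 k j hjk
          linarith
      · have s1 := r1 j i hij
        have s2 := r2 j i hij
        change (f.1 k).1 v < (f.1 j).1 v at s2
        rcases lt_or_gt_of_ne (hne2 j k h12) with hjk | hjk
        · have s3 := r1 j k hjk
          linarith
        · have s3 := r2 k j hjk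
          rw [hki] at s3
          change (f.1 i).1 v < (f.1 k).1 v at s3
          linarith
    have all3 : ∀ m : Fin 3, m = i ∨ m = j ∨ m = k := by
      have h3 : ({i, j, k} : Finset (Fin 3)) = Finset.univ := by
        apply Finset.eq_univ_of_card
        rw [Finset.card_insert_of_notMem, Finset.card_insert_of_notMem, Finset.card_singleton]
        · rfl
        · simpa using h12
        · simp only [Finset.mem_insert, Finset.mem_singleton, not_or]
          exact ⟨h01, Ne.symm h20⟩
      intro m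
      have := Finset.mem_univ m
      rw [← h3] at this
      simpa using this
    -- a centre in an open edge puts everything on this edge
    have double : ∀ (u v : V), u ≠ v → (∃ m, 0 < (c.1 m).1 u ∧ 0 < (c.1 m).1 v) → False := by
      intro u v huv ⟨m, hmu, hmv⟩
      have z : ∀ n, 0 < (f.1 n).1 u → 0 < (f.1 n).1 v →
          ∀ w, w ≠ u → w ≠ v → (f.1 n).1 w = 0 :=
        fun n h1 h2 w hw1 hw2 => (f.1 n).eq_zero_of_two h1 h2 huv hw1 hw2
      -- if `c x, c y` are supported in `{u,v}` and `f n` dominates both then it is positive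
      have both : ∀ (n x y : Fin 3), x ≠ y → (∀ w, w ≠ u → w ≠ v → (c.1 x).1 w = 0) →
          (∀ w, w ≠ u → w ≠ v → (c.1 y).1 w = 0) → (∀ w, 0 < (c.1 x).1 w → 0 < (f.1 n).1 w) →
          (∀ w, 0 < (c.1 y).1 w → 0 < (f.1 n).1 w) → 0 < (f.1 n).1 u ∧ 0 < (f.1 n).1 v := by
        intro n x y hxy hx hy hxn hyn
        have hne : c.1 x ≠ c.1 y := fun h => hxy (hc h)
        constructor
        · rcases pos_or_pos huv hne hx hy with h | h
          · exact hxn u h
          · exact hyn u h
        · rcases pos_or_pos (Ne.symm huv) hne (fun w h1 h2 => hx w h2 h1)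
            (fun w h1 h2 => hy w h2 h1) with h | h
          · exact hxn v h
          · exact hyn v h
      have key : ∀ (x : Fin 3) (n : Fin 3), (∀ w, 0 < (c.1 x).1 w → 0 < (f.1 n).1 w) →
          (∀ w, w ≠ u → w ≠ v → (f.1 n).1 w = 0) → ∀ w, w ≠ u → w ≠ v → (c.1 x).1 w = 0 := by
        intro x n hxn hn w h1 h2
        by_contra hcx
        have := hxn w (lt_of_le_of_ne ((c.1 x).nonneg w) (Ne.symm hcx))
        rw [hn w h1 h2] at this
        exact lt_irrefl _ this
      rcases all3 m with rfl | rfl | rfl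
      · -- `m = i`
        have z1 := z i (hs i u hmu) (hs i v hmv)
        have z2 := z j (fj_i u hmu) (fj_i v hmv)
        have ck := key k i fi_k z1
        have cj := key j j (fun w hw => hs j w hw) z2
        obtain ⟨p1, p2⟩ := both k j k h12 cj ck fk_j (fun w hw => hs k w hw)
        have z3 := z k p1 p2
        refine common u v huv fun n => ?_
        rcases all3 n with rfl | rfl | rfl
        · exact z1
        · exact z2
        · exact z3
      · -- `m = j`
        have z1 := z j (hs j u hmu) (hs j v hmv)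
        have z2 := z k (fk_j u hmu) (fk_j v hmv)
        have ci := key i j fj_i z1
        have ck := key k k (fun w hw => hs k w hw) z2
        obtain ⟨p1, p2⟩ := both i k i h20 ck ci fi_k (fun w hw => hs i w hw)
        have z3 := z i p1 p2
        refine common u v huv fun n => ?_
        rcases all3 n with rfl | rfl | rfl
        · exact z3
        · exact z1
        · exact z2
      · -- `m = k`
        have z1 := z k (hs k u hmu) (hs k v hmv)
        have z2 := z i (fi_k u hmu) (fi_k v hmv)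
        have cj := key j k fk_j z1
        have ci := key i i (fun w hw => hs i w hw) z2
        obtain ⟨p1, p2⟩ := both j i j h01 ci cj fj_i (fun w hw => hs j w hw)
        have z3 := z j p1 p2
        refine common u v huv fun n => ?_
        rcases all3 n with rfl | rfl | rfl
        · exact z2
        · exact z3
        · exact z1
    -- so all centres are vertices and we get a triangle
    have vert : ∀ m, ∃ x, 0 < (c.1 m).1 x ∧ ∀ w, w ≠ x → (c.1 m).1 w = 0 := by
      intro m
      rcases (c.1 m).supp_cases with ⟨x, hx⟩ | ⟨u, v, huv, hx⟩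
      · refine ⟨x, ?_, ?_⟩
        · have : x ∈ supp (c.1 m).1 := by rw [hx]; simp
          exact mem_supp.1 this
        · intro w hw
          apply (c.1 m).eq_zero_of_notMem
          rw [hx]
          simpa using hw
      · exfalso
        refine double u v huv.ne ⟨m, ?_, ?_⟩
        · have : u ∈ supp (c.1 m).1 := by rw [hx]; simp
          exact mem_supp.1 this
        · have : v ∈ supp (c.1 m).1 := by rw [hx]; simp
          exact mem_supp.1 this
    obtain ⟨x, hx, hx0⟩ := vert i
    obtain ⟨y, hy, hy0⟩ := vert j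
    obtain ⟨z, hz, hz0⟩ := vert k
    have hxy : x ≠ y := by
      rintro rfl
      exact h01 (hc (Pt.ext_of_one hx0 hy0))
    have hyz : y ≠ z := by
      rintro rfl
      exact h12 (hc (Pt.ext_of_one hy0 hz0))
    have hzx : z ≠ x := by
      rintro rfl
      exact h20 (hc (Pt.ext_of_one hz0 hx0))
    have A1 : G.Adj x y := (f.1 j).adj_of_mem (fj_i x hx) (hs j y hy) hxy
    have A2 : G.Adj y z := (f.1 k).adj_of_mem (fk_j y hy) (hs k z hz) hyz
    have A3 : G.Adj z x := (f.1 i).adj_of_mem (fi_k z hz) (hs i x hx) hzx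
    exact hG x y z A1 A2 A3

/-- Every configuration whose supports dominate those of `c` is, after a permutation, in the star
of `c`. -/
lemma exists_perm_mem_St {c f : Ord G} (h : Sub (co c.1) (co f.1)) :
    ∃ σ : Equiv.Perm (Fin 3), act σ f ∈ St c := by
  classical
  let T : Fin 3 → Fin 3 → ℝ := fun a b => ∑ x, (c.1 a).1 x * (f.1 b).1 x
  let S : Equiv.Perm (Fin 3) → ℝ := fun σ => ∑ a, T a (σ a)
  obtain ⟨σ, hσ, hmax⟩ := Finset.exists_max_image
    (Finset.univ.filter fun σ : Equiv.Perm (Fin 3) => Sub (co c.1) (co (act σ f).1)) S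
    ⟨1, by
      rw [Finset.mem_filter]
      exact ⟨Finset.mem_univ _, h⟩⟩
  rw [Finset.mem_filter] at hσ
  have hsub := hσ.2
  refine ⟨σ, hsub, ?_⟩
  intro i j v w hvw hi hj hlt
  by_contra hge
  push Not at hge
  change (c.1 i).1 w < (c.1 j).1 w at hlt
  change 1 ≤ (f.1 (σ i)).1 w + (f.1 (σ j)).1 v at hge
  have hij : i ≠ j := by
    rintro rfl
    exact lt_irrefl _ hlt
  have eci := (c.1 i).add_eq_one hvw hi
  have ecj := (c.1 j).add_eq_one hvw hj
  have cjw : 0 < (c.1 j).1 w := lt_of_le_of_lt ((c.1 i).nonneg w) hlt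
  have civ : 0 < (c.1 i).1 v := by
    have := (c.1 j).nonneg v
    linarith
  have gjw : 0 < (f.1 (σ j)).1 w := hsub j w cjw
  have giv : 0 < (f.1 (σ i)).1 v := hsub i v civ
  have two_le : ∀ p : Pt G, p.1 v + p.1 w ≤ 1 := by
    intro p
    have h1 := p.sum_eq
    have h2 : ∑ x ∈ ({v, w} : Finset V), p.1 x ≤ ∑ x, p.1 x :=
      Finset.sum_le_sum_of_subset_of_nonneg (Finset.subset_univ _) fun x _ _ => p.nonneg x
    rw [Finset.sum_pair hvw] at h2
    linarith
  have giw : 0 < (f.1 (σ i)).1 w := by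
    have := two_le (f.1 (σ j))
    linarith
  have gjv : 0 < (f.1 (σ j)).1 v := by
    have := two_le (f.1 (σ i))
    linarith
  have zi : ∀ x, x ≠ v → x ≠ w → (f.1 (σ i)).1 x = 0 :=
    fun x h1 h2 => (f.1 (σ i)).eq_zero_of_two giv giw hvw h1 h2
  have zj : ∀ x, x ≠ v → x ≠ w → (f.1 (σ j)).1 x = 0 :=
    fun x h1 h2 => (f.1 (σ j)).eq_zero_of_two gjv gjw hvw h1 h2
  have egi := (f.1 (σ i)).add_eq_one hvw zi
  have egj := (f.1 (σ j)).add_eq_one hvw zj
  have hgne : (f.1 (σ i)).1 w ≠ (f.1 (σ j)).1 w := by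
    intro he
    have := f.2 (Pt.ext_of_two (Ne.symm hvw) (fun x h1 h2 => zi x h2 h1)
      (fun x h1 h2 => zj x h2 h1) he)
    exact hij (σ.injective this)
  have hgt : (f.1 (σ j)).1 w < (f.1 (σ i)).1 w := lt_of_le_of_ne (by linarith) (Ne.symm hgne)
  -- the swapped permutation
  let σ' : Equiv.Perm (Fin 3) := σ * Equiv.swap i j
  have hi' : σ' i = σ j := by simp [σ']
  have hj' : σ' j = σ i := by simp [σ']
  have ho' : ∀ m, m ≠ i → m ≠ j → σ' m = σ m := by
    intro m h1 h2
    simp [σ', Equiv.swap_apply_of_ne_of_ne h1 h2]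
  have hsub' : Sub (co c.1) (co (act σ' f).1) := by
    intro m x hx
    change 0 < (c.1 m).1 x at hx
    change 0 < (f.1 (σ' m)).1 x
    by_cases hm : m = i
    · subst hm
      rw [hi']
      by_cases hxv : x = v
      · rw [hxv]; exact gjv
      · by_cases hxw : x = w
        · rw [hxw]; exact gjw
        · exact absurd (hi x hxv hxw) (ne_of_gt hx)
    · by_cases hm' : m = j
      · subst hm'
        rw [hj']
        by_cases hxv : x = v
        · rw [hxv]; exact giv
        · by_cases hxw : x = w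
          · rw [hxw]; exact giw
          · exact absurd (hj x hxv hxw) (ne_of_gt hx)
      · rw [ho' m hm hm']
        exact hsub m x hx
  have hle := hmax σ' (by
    rw [Finset.mem_filter]
    exact ⟨Finset.mem_univ _, hsub'⟩)
  have hdiff : S σ' - S σ = (T i (σ j) - T i (σ i)) + (T j (σ i) - T j (σ j)) := by
    change (∑ a, T a (σ' a)) - ∑ a, T a (σ a) = _
    rw [← Finset.sum_sub_distrib, Finset.sum_eq_add i j hij, hi', hj']
    · intro m _ hm
      rw [ho' m hm.1 hm.2, sub_self]
    · intro h; exact absurd (Finset.mem_univ _) h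
    · intro h; exact absurd (Finset.mem_univ _) h
  have hT : ∀ a b, (∀ x, x ≠ v → x ≠ w → (c.1 a).1 x = 0) →
      T a b = (c.1 a).1 v * (f.1 b).1 v + (c.1 a).1 w * (f.1 b).1 w := by
    intro a b ha
    change ∑ x, (c.1 a).1 x * (f.1 b).1 x = _
    rw [Finset.sum_eq_add v w hvw]
    · intro x _ hx
      rw [ha x hx.1 hx.2, zero_mul]
    · intro h; exact absurd (Finset.mem_univ _) h
    · intro h; exact absurd (Finset.mem_univ _) h
  rw [hT i _ hi, hT i _ hi, hT j _ hj, hT j _ hj] at hdiff
  have hpos : 0 < S σ' - S σ := by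
    rw [hdiff]
    have e1 : (c.1 i).1 v = 1 - (c.1 i).1 w := by linarith
    have e2 : (c.1 j).1 v = 1 - (c.1 j).1 w := by linarith
    have e3 : (f.1 (σ i)).1 v = 1 - (f.1 (σ i)).1 w := by linarith
    have e4 : (f.1 (σ j)).1 v = 1 - (f.1 (σ j)).1 w := by linarith
    rw [e1, e2, e3, e4]
    nlinarith [mul_pos (sub_pos.2 hlt) (sub_pos.2 hgt)]
  linarith

end Pool.Agent.Lib.MP_340815_al.H86
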