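import Mathlib

/-!
# MP_340815_al : points of the geometric realisation of a graph and their supports
-/

set_option autoImplicit false
set_option linter.unusedSectionVars false
set_option linter.unusedSimpArgs false

namespace Pool.Agent.Lib.MP_340815_al.H86

open Finset

variable {V : Type} [DecidableEq V]

/-- The geometric realisation of `G`, as in the frozen statement. -/
abbrev Pt (G : SimpleGraph V) : Type :=
  {p : V → ℝ // ∃ u v : V, (u = v ∨ G.Adj u v) ∧
    ∃ t : ℝ, 0 ≤ t ∧ t ≤ 1 ∧ p = t • Pi.single u (1 : ℝ) + (1 - t) • Pi.single v (1 : ℝ)}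

/-- The ordered configuration space of three points. -/
abbrev Ord (G : SimpleGraph V) : Type := {f : Fin 3 → Pt G // Function.Injective f}

variable {G : SimpleGraph V}

/-- Every point lies in a closed edge (or is a vertex): barycentric description. -/
lemma Pt.exists_cell (p : Pt G) : ∃ u v : V, (u = v ∨ G.Adj u v) ∧
    (∀ w, w ≠ u → w ≠ v → p.1 w = 0) ∧ (∀ w, 0 ≤ p.1 w) ∧ (u ≠ v → p.1 u + p.1 v = 1) ∧
    (u = v → p.1 u = 1) := by
  obtain ⟨p, u, v, huv, t, ht0, ht1, rfl⟩ := p
  refine ⟨u, v, huv, ?_, ?_, ?_, ?_⟩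
  · intro w hu hv
    simp [Pi.single_apply, hu, hv]
  · intro w
    simp only [Pi.add_apply, Pi.smul_apply, Pi.single_apply, smul_eq_mul]
    split_ifs <;> simp <;> linarith
  · intro h
    simp [Pi.single_apply, h, h.symm]
  · rintro rfl
    simp

lemma Pt.nonneg (p : Pt G) (w : V) : 0 ≤ p.1 w := by
  obtain ⟨u, v, -, -, h, -⟩ := p.exists_cell
  exact h w

lemma mem_pt {p : V → ℝ} {u v : V} (huv : u = v ∨ G.Adj u v)
    (h0 : ∀ w, w ≠ u → w ≠ v → p w = 0) (hnn : ∀ w, 0 ≤ p w)
    (h1 : u ≠ v → p u + p v = 1) (h2 : u = v → p u = 1) :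
    ∃ u v : V, (u = v ∨ G.Adj u v) ∧
      ∃ t : ℝ, 0 ≤ t ∧ t ≤ 1 ∧ p = t • Pi.single u (1 : ℝ) + (1 - t) • Pi.single v (1 : ℝ) := by
  refine ⟨u, v, huv, p u, hnn u, ?_, ?_⟩
  · by_cases h : u = v
    · exact (h2 h).le
    · have := h1 h
      have := hnn v
      linarith
  · funext w
    simp only [Pi.add_apply, Pi.smul_apply, Pi.single_apply, smul_eq_mul]
    by_cases h : u = v
    · subst h
      by_cases hw : w = u
      · subst hw
        simp [h2 rfl]
      · simp [hw, h0 w hw hw]
    · by_cases hw : w = u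
      · subst hw
        simp [h]
      · by_cases hw' : w = v
        · subst hw'
          have := h1 h
          simp [Ne.symm h]
          linarith
        · simp [hw, hw', h0 w hw hw']

variable [Fintype V]

/-- The support of a point. -/
noncomputable def supp (p : V → ℝ) : Finset V := {w | 0 < p w}

@[simp] lemma mem_supp {p : V → ℝ} {w : V} : w ∈ supp p ↔ 0 < p w := by
  simp [supp]

/-- The total mass is one. -/
lemma Pt.sum_eq (p : Pt G) : ∑ w, p.1 w = 1 := by
  obtain ⟨p, u, v, huv, t, ht0, ht1, rfl⟩ := p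
  simp only [Pi.add_apply, Pi.smul_apply, smul_eq_mul, Finset.sum_add_distrib, ← Finset.mul_sum]
  simp

lemma Pt.supp_nonempty (p : Pt G) : (supp p.1).Nonempty := by
  by_contra h
  rw [Finset.not_nonempty_iff_eq_empty] at h
  have h1 : ∀ w, p.1 w = 0 := by
    intro w
    by_contra hw
    have : w ∈ supp p.1 := mem_supp.2 (lt_of_le_of_ne (p.nonneg w) (Ne.symm hw))
    rw [h] at this
    simp at this
  have h2 := p.sum_eq
  simp [h1] at h2

/-- Two distinct vertices of the support are adjacent. -/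
lemma Pt.adj_of_mem (p : Pt G) {u v : V} (hu : 0 < p.1 u) (hv : 0 < p.1 v) (huv : u ≠ v) :
    G.Adj u v := by
  obtain ⟨a, b, hab, h0, -, -, -⟩ := p.exists_cell
  have hu' : u = a ∨ u = b := by
    by_contra h
    push Not at h
    rw [h0 u h.1 h.2] at hu
    exact lt_irrefl _ hu
  have hv' : v = a ∨ v = b := by
    by_contra h
    push Not at h
    rw [h0 v h.1 h.2] at hv
    exact lt_irrefl _ hv
  rcases hu' with rfl | rfl <;> rcases hv' with rfl | rfl
  · exact absurd rfl huv
  · rcases hab with h | h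
    · exact absurd h huv
    · exact h
  · rcases hab with h | h
    · exact absurd h.symm huv
    · exact h.symm
  · exact absurd rfl huv

/-- If two distinct vertices are in the support there are no others. -/
lemma Pt.eq_zero_of_two (p : Pt G) {u v : V} (hu : 0 < p.1 u) (hv : 0 < p.1 v) (huv : u ≠ v)
    {w : V} (hwu : w ≠ u) (hwv : w ≠ v) : p.1 w = 0 := by
  obtain ⟨a, b, hab, h0, -, -, -⟩ := p.exists_cell
  have hu' : u = a ∨ u = b := by
    by_contra h
    push Not at h
    rw [h0 u h.1 h.2] at hu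
    exact lt_irrefl _ hu
  have hv' : v = a ∨ v = b := by
    by_contra h
    push Not at h
    rw [h0 v h.1 h.2] at hv
    exact lt_irrefl _ hv
  rcases hu' with rfl | rfl <;> rcases hv' with rfl | rfl
  · exact absurd rfl huv
  · exact h0 w hwu hwv
  · exact h0 w hwv hwu
  · exact absurd rfl huv

/-- A point supported in `{u, v}` with `u ≠ v` has total mass one there. -/
lemma Pt.add_eq_one (p : Pt G) {u v : V} (huv : u ≠ v)
    (h0 : ∀ w, w ≠ u → w ≠ v → p.1 w = 0) : p.1 u + p.1 v = 1 := by
  have h := p.sum_eq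
  rw [← Finset.sum_subset (Finset.subset_univ {u, v})] at h
  · rwa [Finset.sum_pair huv] at h
  · intro w _ hw
    simp only [Finset.mem_insert, Finset.mem_singleton, not_or] at hw
    exact h0 w hw.1 hw.2

/-- A point supported at one vertex. -/
lemma Pt.eq_one_of (p : Pt G) {u : V} (h0 : ∀ w, w ≠ u → p.1 w = 0) : p.1 u = 1 := by
  have h := p.sum_eq
  rwa [← Finset.sum_subset (Finset.subset_univ {u}), Finset.sum_singleton] at h
  intro w _ hw
  exact h0 w (by simpa using hw)

lemma Pt.ext_of_two {p q : Pt G} {u v : V} (huv : u ≠ v)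
    (hp : ∀ w, w ≠ u → w ≠ v → p.1 w = 0) (hq : ∀ w, w ≠ u → w ≠ v → q.1 w = 0)
    (h : p.1 u = q.1 u) : p = q := by
  apply Subtype.ext
  funext w
  by_cases hu : w = u
  · rw [hu, h]
  · by_cases hv : w = v
    · have h1 := p.add_eq_one huv hp
      have h2 := q.add_eq_one huv hq
      rw [hv]
      linarith
    · rw [hp w hu hv, hq w hu hv]

lemma Pt.ext_of_one {p q : Pt G} {u : V}
    (hp : ∀ w, w ≠ u → p.1 w = 0) (hq : ∀ w, w ≠ u → q.1 w = 0) : p = q := by
  apply Subtype.ext
  funext w
  by_cases hu : w = u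
  · rw [hu, p.eq_one_of hp, q.eq_one_of hq]
  · rw [hp w hu, hq w hu]

lemma Pt.eq_zero_of_notMem (p : Pt G) {w : V} (h : w ∉ supp p.1) : p.1 w = 0 := by
  have h1 := p.nonneg w
  rw [mem_supp, not_lt] at h
  exact le_antisymm h h1

/-- The support is a vertex or an edge. -/
lemma Pt.supp_cases (p : Pt G) :
    (∃ v, supp p.1 = {v}) ∨ ∃ u v, G.Adj u v ∧ supp p.1 = {u, v} := by
  obtain ⟨u, hu⟩ := p.supp_nonempty
  by_cases h : ∃ v ∈ supp p.1, v ≠ u
  · obtain ⟨v, hv, hvu⟩ := h
    right
    refine ⟨u, v, p.adj_of_mem (mem_supp.1 hu) (mem_supp.1 hv) hvu.symm, ?_⟩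
    ext w
    simp only [Finset.mem_insert, Finset.mem_singleton]
    constructor
    · intro hw
      by_contra hc
      push Not at hc
      have := p.eq_zero_of_two (mem_supp.1 hu) (mem_supp.1 hv) hvu.symm hc.1 hc.2
      rw [mem_supp, this] at hw
      exact lt_irrefl _ hw
    · rintro (rfl | rfl) <;> assumption
  · push Not at h
    left
    refine ⟨u, ?_⟩
    ext w
    simp only [Finset.mem_singleton]
    exact ⟨fun hw => h w hw, fun hw => hw ▸ hu⟩

end Pool.Agent.Lib.MP_340815_al.H86
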