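import Pool.Agent.Lib.MP_340815_al.H86.Points

/-!
# MP_340815_al : the star of an ordered configuration of three points
-/

set_option autoImplicit false
set_option linter.unusedSectionVars false

namespace Pool.Agent.Lib.MP_340815_al.H86

open Finset

variable {V : Type} [DecidableEq V] [Fintype V] {G : SimpleGraph V}

/-- Barycentric coordinates of an ordered configuration. -/
abbrev co (f : Fin 3 → Pt G) : Fin 3 → V → ℝ := fun i => (f i).1

/-- The supports only grow. -/
def Sub (c f : Fin 3 → V → ℝ) : Prop := ∀ i v, 0 < c i v → 0 < f i v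

/-- The particles stay separated on every closed edge containing two of the centres. -/
def Sep (c f : Fin 3 → V → ℝ) : Prop := ∀ i j v w, v ≠ w →
  (∀ x, x ≠ v → x ≠ w → c i x = 0) → (∀ x, x ≠ v → x ≠ w → c j x = 0) → c i w < c j w →
  f i w + f j v < 1

/-- The star of an ordered configuration. -/
def St (c : Ord G) : Set (Ord G) := {f | Sub (co c.1) (co f.1) ∧ Sep (co c.1) (co f.1)}

lemma mem_St_self (c : Ord G) : c ∈ St c := by
  refine ⟨fun i v h => h, ?_⟩
  intro i j v w hvw hi hj hlt
  have h1 := (c.1 j).add_eq_one hvw hj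
  change (c.1 i).1 w + (c.1 j).1 v < 1
  change (c.1 i).1 w < (c.1 j).1 w at hlt
  linarith

/-- Zero outside the support of the larger point. -/
lemma Sub.eq_zero {c f : Fin 3 → Pt G} (h : Sub (co c) (co f)) {i : Fin 3} {w : V}
    (hw : (f i).1 w = 0) : (c i).1 w = 0 := by
  by_contra hc
  have h1 : 0 < (c i).1 w := lt_of_le_of_ne ((c i).nonneg w) (Ne.symm hc)
  have := h i w h1
  change 0 < (f i).1 w at this
  rw [hw] at this
  exact lt_irrefl _ this

/-- The inequalities of a star imply injectivity. -/
lemma injective_of {c f : Fin 3 → Pt G} (hc : Function.Injective c)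
    (hs : Sub (co c) (co f)) (hp : Sep (co c) (co f)) : Function.Injective f := by
  intro i j hij
  by_contra hne
  have hcne : c i ≠ c j := fun h => hne (hc h)
  obtain ⟨u, v, huv, h0, -, -, -⟩ := (f i).exists_cell
  have h0j : ∀ w, w ≠ u → w ≠ v → (f j).1 w = 0 := by rw [← hij]; exact h0
  by_cases h : u = v
  · subst h
    apply hcne
    exact Pt.ext_of_one (fun w hw => hs.eq_zero (h0 w hw hw)) (fun w hw => hs.eq_zero (h0j w hw hw))
  · have hi : ∀ w, w ≠ u → w ≠ v → (c i).1 w = 0 := fun w hu hv => hs.eq_zero (h0 w hu hv)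
    have hj : ∀ w, w ≠ u → w ≠ v → (c j).1 w = 0 := fun w hu hv => hs.eq_zero (h0j w hu hv)
    have hne2 : (c i).1 v ≠ (c j).1 v := by
      intro he
      apply hcne
      exact Pt.ext_of_two (Ne.symm h) (fun w hw1 hw2 => hi w hw2 hw1)
        (fun w hw1 hw2 => hj w hw2 hw1) he
    have hfi : (f i).1 u + (f i).1 v = 1 := (f i).add_eq_one h h0
    rcases lt_or_gt_of_ne hne2 with hlt | hlt
    · have := hp i j u v h hi hj hlt
      change (f i).1 v + (f j).1 u < 1 at this
      rw [← hij] at this
      linarith
    · have := hp j i u v h hj hi hlt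
      change (f j).1 v + (f i).1 u < 1 at this
      rw [← hij] at this
      linarith

/-- The straight line towards the centre. -/
noncomputable def mixPt {c f : Fin 3 → Pt G} (hs : Sub (co c) (co f)) (t : unitInterval)
    (i : Fin 3) : Pt G :=
  ⟨fun v => (1 - (t : ℝ)) * (f i).1 v + (t : ℝ) * (c i).1 v, by
    obtain ⟨u, v, huv, h0, hnn, h1, h2⟩ := (f i).exists_cell
    have hci : ∀ w, w ≠ u → w ≠ v → (c i).1 w = 0 := fun w hu hv => hs.eq_zero (h0 w hu hv)
    have ht0 := t.2.1
    have ht1 := t.2.2
    refine mem_pt huv ?_ ?_ ?_ ?_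
    · intro w hu hv
      simp [h0 w hu hv, hci w hu hv]
    · intro w
      have := (f i).nonneg w
      have := (c i).nonneg w
      have : 0 ≤ 1 - (t : ℝ) := by linarith
      positivity
    · intro h
      have e1 := h1 h
      have e2 := (c i).add_eq_one h hci
      calc (1 - (t : ℝ)) * (f i).1 u + (t : ℝ) * (c i).1 u +
          ((1 - (t : ℝ)) * (f i).1 v + (t : ℝ) * (c i).1 v)
          = (1 - (t : ℝ)) * ((f i).1 u + (f i).1 v) + (t : ℝ) * ((c i).1 u + (c i).1 v) := by ring
        _ = 1 := by rw [e1, e2]; ring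
    · intro h
      have e1 := h2 h
      have e2 : (c i).1 u = 1 := (c i).eq_one_of (fun w hw => hci w hw (h ▸ hw))
      simp only [e1, e2]
      ring⟩

lemma mix_sub {c f : Fin 3 → Pt G} (hs : Sub (co c) (co f)) (t : unitInterval) :
    Sub (co c) (co (mixPt hs t)) := by
  intro i v h
  change 0 < (1 - (t : ℝ)) * (f i).1 v + (t : ℝ) * (c i).1 v
  change 0 < (c i).1 v at h
  have h1 : 0 < (f i).1 v := hs i v h
  have ht0 := t.2.1
  have ht1 := t.2.2
  rcases eq_or_lt_of_le ht0 with h0 | h0
  · rw [← h0]
    simpa using h1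
  · have : 0 ≤ (1 - (t : ℝ)) * (f i).1 v := mul_nonneg (by linarith) h1.le
    have : 0 < (t : ℝ) * (c i).1 v := mul_pos h0 h
    linarith

lemma mix_sep {c f : Fin 3 → Pt G} (hs : Sub (co c) (co f)) (hp : Sep (co c) (co f))
    (t : unitInterval) : Sep (co c) (co (mixPt hs t)) := by
  intro i j v w hvw hi hj hlt
  have h1 := hp i j v w hvw hi hj hlt
  have h2 := (c j).add_eq_one hvw hj
  change (1 - (t : ℝ)) * (f i).1 w + (t : ℝ) * (c i).1 w +
    ((1 - (t : ℝ)) * (f j).1 v + (t : ℝ) * (c j).1 v) < 1
  change (f i).1 w + (f j).1 v < 1 at h1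
  change (c i).1 w < (c j).1 w at hlt
  have h3 : (c i).1 w + (c j).1 v < 1 := by linarith
  have ht0 := t.2.1
  have ht1 := t.2.2
  rcases eq_or_lt_of_le ht0 with h0 | h0
  · rw [← h0]
    simpa using h1
  · have e1 : (1 - (t : ℝ)) * ((f i).1 w + (f j).1 v) ≤ (1 - (t : ℝ)) * 1 :=
      mul_le_mul_of_nonneg_left h1.le (by linarith)
    have e2 : (t : ℝ) * ((c i).1 w + (c j).1 v) < (t : ℝ) * 1 :=
      mul_lt_mul_of_pos_left h3 h0
    nlinarith

/-- The straight line homotopy on a star. -/
noncomputable def mix (c : Ord G) (t : unitInterval) (f : St c) : St c :=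
  ⟨⟨mixPt f.2.1 t, injective_of c.2 (mix_sub f.2.1 t) (mix_sep f.2.1 f.2.2 t)⟩,
    mix_sub f.2.1 t, mix_sep f.2.1 f.2.2 t⟩

lemma continuous_mix (c : Ord G) :
    Continuous (fun x : unitInterval × St c => mix c x.1 x.2) := by
  apply Continuous.subtype_mk
  apply Continuous.subtype_mk
  apply continuous_pi
  intro i
  apply Continuous.subtype_mk
  apply continuous_pi
  intro v
  have h1 : Continuous fun x : unitInterval × St c => (x.1 : ℝ) :=
    continuous_subtype_val.comp continuous_fst
  have h2 : Continuous fun x : unitInterval × St c => (x.2.1.1 i).1 v := by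
    have h3 : Continuous fun x : unitInterval × St c => x.2.1.1 :=
      continuous_subtype_val.comp (continuous_subtype_val.comp continuous_snd)
    exact (continuous_apply v).comp (continuous_subtype_val.comp ((continuous_apply i).comp h3))
  exact ((continuous_const.sub h1).mul h2).add (h1.mul continuous_const)

instance contractible_St (c : Ord G) : ContractibleSpace (St c) := by
  rw [contractible_iff_id_nullhomotopic]
  refine ⟨⟨c, mem_St_self c⟩, ⟨⟨⟨fun x => mix c x.1 x.2, continuous_mix c⟩, ?_, ?_⟩⟩⟩
  · intro f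
    apply Subtype.ext
    apply Subtype.ext
    funext i
    apply Subtype.ext
    funext v
    change (1 - ((0 : unitInterval) : ℝ)) * (f.1.1 i).1 v + ((0 : unitInterval) : ℝ) * (c.1 i).1 v
      = (f.1.1 i).1 v
    simp
  · intro f
    apply Subtype.ext
    apply Subtype.ext
    funext i
    apply Subtype.ext
    funext v
    change (1 - ((1 : unitInterval) : ℝ)) * (f.1.1 i).1 v + ((1 : unitInterval) : ℝ) * (c.1 i).1 v
      = (c.1 i).1 v
    simp

lemma continuous_coord (i : Fin 3) (v : V) : Continuous fun f : Ord G => (f.1 i).1 v :=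
  (continuous_apply v).comp (continuous_subtype_val.comp
    ((continuous_apply i).comp continuous_subtype_val))

/-- Stars are open. -/
lemma isOpen_St (c : Ord G) : IsOpen (St c) := by
  have h1 : IsOpen {f : Ord G | Sub (co c.1) (co f.1)} := by
    simp only [Sub, Set.ofPred_forall]
    refine isOpen_iInter_of_finite fun i => isOpen_iInter_of_finite fun v =>
      isOpen_iInter_of_finite fun _ => ?_
    exact isOpen_lt continuous_const (continuous_coord i v)
  have h2 : IsOpen {f : Ord G | Sep (co c.1) (co f.1)} := by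
    simp only [Sep, Set.ofPred_forall]
    refine isOpen_iInter_of_finite fun i => isOpen_iInter_of_finite fun j =>
      isOpen_iInter_of_finite fun v => isOpen_iInter_of_finite fun w =>
      isOpen_iInter_of_finite fun _ => isOpen_iInter_of_finite fun _ =>
      isOpen_iInter_of_finite fun _ => isOpen_iInter_of_finite fun _ => ?_
    exact isOpen_lt ((continuous_coord i w).add (continuous_coord j v)) continuous_const
  exact h1.inter h2

end Pool.Agent.Lib.MP_340815_al.H86
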